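import Pool.Agent.K4H55.BM.Den
import Pool.Agent.K4H55.BI.Main

/-!
Counting quadratic characters over `K`.
-/

set_option autoImplicit false

open NumberField IsDedekindDomain Filter Topology
open scoped symmDiff

namespace Pool.Agent.K4H55.BM

open Pool.Agent.K4H55.BI

/-- from one counting function to another -/
theorem convert {δ : ℝ} (hδ : 0 < δ) (hδ1 : δ < 1) {N F : ℕ → ℕ}
    (hN : ∀ᶠ X : ℕ in atTop, (X : ℝ) / (Real.log X) ^ (1 - δ) ≤ N X) (hF : Monotone F) {C : ℕ}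
    (h : ∀ X, N X ≤ C * F (C * X)) :
    ∃ X0 : ℕ, ∀ X : ℕ, X0 ≤ X → (X : ℝ) / Real.log X ^ (1 - δ / 2) ≤ F X := by
  obtain ⟨X1, hX1⟩ := eventually_atTop.1 hN
  have hlog : Tendsto (fun X : ℕ => Real.log X) atTop atTop :=
    Real.tendsto_log_atTop.comp tendsto_natCast_atTop_atTop
  set K0 : ℕ := C + 1 with hK0
  have e1 : ∀ᶠ Y : ℕ in atTop, (2 * K0 ^ 2 : ℝ) ≤ (Real.log Y) ^ (δ / 2) :=
    ((tendsto_rpow_atTop (by positivity : 0 < δ / 2)).comp hlog).eventually_ge_atTop _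
  refine eventually_atTop.1 ?_
  filter_upwards [e1, eventually_ge_atTop ((X1 + 3) * K0 + 2 * K0)] with Y hY1 hY2
  have hK0p : 0 < K0 := by omega
  set X : ℕ := Y / K0 with hX
  have hX1' : X1 + 3 ≤ X := by
    rw [hX, Nat.le_div_iff_mul_le hK0p]
    omega
  have hXY : K0 * X ≤ Y := Nat.mul_div_le Y K0
  have h2 : N X ≤ K0 * F Y := by
    refine (h X).trans (Nat.mul_le_mul (Nat.le_succ C) (hF ?_))
    exact (Nat.mul_le_mul_right X (Nat.le_succ C)).trans hXY
  have h3 := hX1 X (by omega)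
  have hK0r : (0 : ℝ) < K0 := by exact_mod_cast hK0p
  have hXr : (3 : ℝ) ≤ X := by exact_mod_cast (by omega : 3 ≤ X)
  have hlX : 0 < Real.log X := Real.log_pos (by linarith)
  have hXY' : (X : ℝ) ≤ Y := by exact_mod_cast Nat.div_le_self Y K0
  have hYr : (0 : ℝ) < Y := by linarith
  have hlXY : Real.log X ≤ Real.log Y := Real.log_le_log (by linarith) hXY'
  have hlY : 0 < Real.log Y := by linarith
  have h4 : (Y : ℝ) / (2 * K0) ≤ X := by
    rw [div_le_iff₀ (by positivity)]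
    have h5 : Y < K0 * (X + 1) := by
      rw [hX]
      have := Nat.div_add_mod Y K0
      have := Nat.mod_lt Y hK0p
      nlinarith
    have h6 : (Y : ℝ) ≤ K0 * (X + 1) := by exact_mod_cast h5.le
    nlinarith
  have h5 : (Y : ℝ) / (2 * K0) / Real.log Y ^ (1 - δ) ≤ X / Real.log X ^ (1 - δ) := by
    apply div_le_div₀ (by positivity) h4 (Real.rpow_pos_of_pos hlX _)
    exact Real.rpow_le_rpow hlX.le hlXY (by linarith)
  have h6 : (Y : ℝ) / (2 * K0) / Real.log Y ^ (1 - δ) ≤ K0 * F Y := by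
    refine h5.trans (h3.trans ?_)
    exact_mod_cast h2
  have h7 : (Y : ℝ) / Real.log Y ^ (1 - δ / 2) =
      Y / (Real.log Y ^ (1 - δ) * Real.log Y ^ (δ / 2)) := by
    rw [← Real.rpow_add hlY]
    congr 2
    ring
  rw [h7]
  have hl1 : 0 < Real.log Y ^ (1 - δ) := Real.rpow_pos_of_pos hlY _
  calc (Y : ℝ) / (Real.log Y ^ (1 - δ) * Real.log Y ^ (δ / 2)) ≤
        Y / (Real.log Y ^ (1 - δ) * (2 * K0 ^ 2)) := by gcongr
    _ = (Y : ℝ) / (2 * K0) / Real.log Y ^ (1 - δ) / K0 := by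
        field_simp
    _ ≤ F Y := by
        rw [div_le_iff₀ hK0r]
        linarith

variable {K : Type} [Field K] [NumberField K]

/-- the characters with bounded corrections -/
theorem count2 [DecidableEq (HeightOneSpectrum (𝓞 K))]
    {P P' : Finset (HeightOneSpectrum (𝓞 K)) → Prop} (KK : Finset (Finset (HeightOneSpectrum (𝓞 K))))
    (h : ∀ T, P T → ∃ k ∈ KK, P' (T ∆ k)) :
    ∃ C : ℕ, ∀ X : ℕ, {T | P T ∧ NT T ≤ X}.ncard ≤ C * {T | P' T ∧ NT T ≤ C * X}.ncard := by
  classical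
  let M : ℕ := ∑ k ∈ KK, NT k
  have hM : ∀ k ∈ KK, NT k ≤ M := fun k hk =>
    Finset.single_le_sum (f := fun k => NT k) (fun _ _ => Nat.zero_le _) hk
  refine ⟨KK.card + M, fun X => ?_⟩
  have hfin : {T | P' T ∧ NT T ≤ (KK.card + M) * X}.Finite :=
    (NT_fin ((KK.card + M) * X)).subset fun T hT => hT.2
  choose! t ht1 ht2 using h
  have h1 : {T | P T ∧ NT T ≤ X}.ncard ≤
      ((KK : Set (Finset (HeightOneSpectrum (𝓞 K)))) ×ˢ
        {T | P' T ∧ NT T ≤ (KK.card + M) * X}).ncard := by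
    refine Set.ncard_le_ncard_of_injOn (fun T => (t T, T ∆ t T)) ?_ ?_
      (KK.finite_toSet.prod hfin)
    · rintro T ⟨hT, hX⟩
      refine ⟨ht1 T hT, ht2 T hT, ?_⟩
      calc NT (T ∆ t T) ≤ NT T * NT (t T) := NT_symm _ _
        _ ≤ X * M := Nat.mul_le_mul hX (hM _ (ht1 T hT))
        _ ≤ (KK.card + M) * X := by
          rw [mul_comm]
          exact Nat.mul_le_mul_right X (Nat.le_add_left _ _)
    · rintro T - T' - h2
      simp only [Prod.mk.injEq] at h2
      obtain ⟨h3, h4⟩ := h2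
      rw [← h3] at h4
      exact symmDiff_left_injective _ h4
  refine h1.trans ?_
  rw [Set.ncard_prod, Set.ncard_coe_finset]
  exact Nat.mul_le_mul_right _ (Nat.le_add_right _ _)

/-- `T` is composed of chosen places above the prime numbers of `A` -/
def Ch (vq : ℕ → HeightOneSpectrum (𝓞 K)) (A : Set ℕ) (T : Finset (HeightOneSpectrum (𝓞 K))) :
    Prop := ∃ S : Finset ℕ, (∀ q ∈ S, q ∈ A) ∧ (T : Set (HeightOneSpectrum (𝓞 K))) = vq '' S

lemma NA_le {A : Set ℕ} {vq : ℕ → HeightOneSpectrum (𝓞 K)}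
    (hv : ∀ q ∈ A, Ideal.absNorm (vq q).asIdeal = q) (X : ℕ) :
    AB.Cnt.NA A X ≤ {T | Ch vq A T ∧ NT T ≤ X}.ncard := by
  classical
  have hinj : Set.InjOn vq A := by
    intro q hq q' hq' h
    rw [← hv q hq, ← hv q' hq', h]
  unfold AB.Cnt.NA
  rw [← Set.ncard_coe_finset]
  have hmem : ∀ n ∈ (((Finset.range (X + 1)).filter (AB.Cnt.Ad A) : Finset ℕ) : Set ℕ),
      n ≤ X ∧ Squarefree n ∧ ∀ q ∈ n.primeFactors, q ∈ A := by
    intro n hn
    rw [Finset.mem_coe, Finset.mem_filter, Finset.mem_range] at hn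
    exact ⟨by omega, hn.2.1, fun q hq => hn.2.2 q (Nat.prime_of_mem_primeFactors hq)
      (Nat.dvd_of_mem_primeFactors hq)⟩
  refine Set.ncard_le_ncard_of_injOn (fun n => n.primeFactors.image vq) ?_ ?_
    ((NT_fin X).subset fun T hT => hT.2)
  · intro n hn
    obtain ⟨h1, h2, h3⟩ := hmem n hn
    refine ⟨⟨n.primeFactors, h3, Finset.coe_image⟩, ?_⟩
    show NT (n.primeFactors.image vq) ≤ X
    unfold NT
    rw [Finset.prod_image (hinj.mono fun q hq => h3 q hq),
      Finset.prod_congr rfl (fun q hq => hv q (h3 q hq)), Nat.prod_primeFactors_of_squarefree h2]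
    exact h1
  · intro n hn m hm h
    obtain ⟨-, h2, h3⟩ := hmem n hn
    obtain ⟨-, h4, h5⟩ := hmem m hm
    have h6 : n.primeFactors.image vq = m.primeFactors.image vq := h
    have h7 : n.primeFactors = m.primeFactors := by
      ext q
      constructor
      · intro hq
        have h8 : vq q ∈ m.primeFactors.image vq := h6 ▸ Finset.mem_image_of_mem vq hq
        obtain ⟨q', hq', he⟩ := Finset.mem_image.1 h8
        rw [← hinj (h5 q' hq') (h3 q hq) he]
        exact hq'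
      · intro hq
        have h8 : vq q ∈ n.primeFactors.image vq := h6 ▸ Finset.mem_image_of_mem vq hq
        obtain ⟨q', hq', he⟩ := Finset.mem_image.1 h8
        rw [← hinj (h3 q' hq') (h5 q hq) he]
        exact hq'
    rw [← Nat.prod_primeFactors_of_squarefree h2, h7, Nat.prod_primeFactors_of_squarefree h4]

end Pool.Agent.K4H55.BM
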