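import Pool.Agent.K4H55.BD.Den

/-!
The density of the prime numbers with an admissible place of degree one.
-/

set_option autoImplicit false

open NumberField IsDedekindDomain Filter Topology

namespace Pool.Agent.K4H55.BM

open Pool.Agent.W569.FM Pool.Agent.Y142
open Pool.Agent.K4H55.BD
open Pool.Agent.K4H55.AB (X0 density_lower remove cA_mono conj_root conj_mem_HH mem_HH_all frob_pow)

variable {K : Type} [Field K] [NumberField K]

section frob

variable {a b : 𝓞 K} {q : ℕ} {P : Ideal (OO ℚ)} {g : GF ℚ}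

theorem no_root1 (hq : q.Prime) (hP : P.IsMaximal) (hqP : (q : OO ℚ) ∈ P) (hg : FrobAt q P g)
    (τ : GF ℚ) (hK : τ⁻¹ * g * τ ∈ Pool.Agent.Y142.HH ℚ K)
    (hmove : ∀ t : AlgebraicClosure ℚ,
      Ro (τ (emb ℚ K (a : K))) (τ (emb ℚ K (b : K))) t → g t ≠ t)
    (hΔ : 2 * (4 * a ^ 3 + 27 * b ^ 2) ∉ (vv τ hq hP hqP : HeightOneSpectrum (𝓞 K)).asIdeal)
    (X : 𝓞 K) :
    X ^ 3 + a * X + b ∉ (vv τ hq hP hqP : HeightOneSpectrum (𝓞 K)).asIdeal := by
  intro hX
  rw [mem_vv] at hX hΔ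
  set x : OO ℚ := τ • ioO K (algebraMap (𝓞 K) (OO K) X) with hx
  set α : OO ℚ := τ • ioO K (algebraMap (𝓞 K) (OO K) a) with hα
  set β : OO ℚ := τ • ioO K (algebraMap (𝓞 K) (OO K) b) with hβ
  have hnum : ∀ m : ℕ, τ • (m : OO ℚ) = (m : OO ℚ) := fun m =>
    map_natCast (MulSemiringAction.toRingHom (GF ℚ) (OO ℚ) τ) m
  have e1 : τ • ioO K (algebraMap (𝓞 K) (OO K) (X ^ 3 + a * X + b)) = x ^ 3 + α * x + β := by
    simp only [map_add, map_mul, map_pow, smul_add, smul_mul', smul_pow', hx, hα, hβ]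
  have e2 : τ • ioO K (algebraMap (𝓞 K) (OO K) (2 * (4 * a ^ 3 + 27 * b ^ 2))) =
      2 * (4 * α ^ 3 + 27 * β ^ 2) := by
    have n2 : τ • (2 : OO ℚ) = 2 := by exact_mod_cast hnum 2
    have n4 : τ • (4 : OO ℚ) = 4 := by exact_mod_cast hnum 4
    have n27 : τ • (27 : OO ℚ) = 27 := by exact_mod_cast hnum 27
    simp only [map_add, map_mul, map_pow, map_ofNat, smul_add, smul_mul', smul_pow', hα, hβ, n2,
      n4, n27]
  rw [e1] at hX
  rw [e2] at hΔ
  have hfixO : ∀ Y : 𝓞 K, g • (τ • ioO K (algebraMap (𝓞 K) (OO K) Y)) =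
      τ • ioO K (algebraMap (𝓞 K) (OO K) Y) := by
    intro Y
    have h2 : g * τ = τ * (τ⁻¹ * g * τ) := by group
    rw [smul_smul, h2, ← smul_smul, smul_ioO_of_mem hK]
  have hfix : g • x = x := hfixO X
  have hcα : (α : AlgebraicClosure ℚ) = τ (emb ℚ K (a : K)) := rfl
  have hcβ : (β : AlgebraicClosure ℚ) = τ (emb ℚ K (b : K)) := rfl
  obtain ⟨t1, t2, t3, h1, h2, h3, hsp⟩ := ro_split (α : AlgebraicClosure ℚ) (β : AlgebraicClosure ℚ)
  let T : (t : AlgebraicClosure ℚ) → Ro (α : AlgebraicClosure ℚ) (β : AlgebraicClosure ℚ) t →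
    OO ℚ := fun t ht => ⟨t, ro_integral ht⟩
  have hfac : x ^ 3 + α * x + β = (x - T t1 h1) * (x - T t2 h2) * (x - T t3 h3) := by
    apply RingOfIntegers.ext
    have := hsp (x : AlgebraicClosure ℚ)
    simp only [map_add, map_mul, map_pow, map_sub]
    exact this
  rw [hfac] at hX
  have hxT : ∃ (t : AlgebraicClosure ℚ) (ht : Ro (α : AlgebraicClosure ℚ)
      (β : AlgebraicClosure ℚ) t), x - T t ht ∈ P := by
    rcases hP.isPrime.mem_or_mem hX with h | h
    · rcases hP.isPrime.mem_or_mem h with h | h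
      · exact ⟨t1, h1, h⟩
      · exact ⟨t2, h2, h⟩
    · exact ⟨t3, h3, h⟩
  obtain ⟨t, ht, hxt⟩ := hxT
  have hgα : g (α : AlgebraicClosure ℚ) = α := congrArg (fun y : OO ℚ => (y : AlgebraicClosure ℚ))
    (hfixO a)
  have hgβ : g (β : AlgebraicClosure ℚ) = β := congrArg (fun y : OO ℚ => (y : AlgebraicClosure ℚ))
    (hfixO b)
  have hgt : Ro (α : AlgebraicClosure ℚ) (β : AlgebraicClosure ℚ) (g t) := by
    have := congrArg g ht
    simp only [map_add, map_mul, map_pow, map_zero, hgα, hgβ] at this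
    exact this
  have h4 : T t ht ^ q - x ^ q ∈ P := by
    have := P.neg_mem hxt
    rw [neg_sub] at this
    exact P.mem_of_dvd (sub_dvd_pow_sub_pow _ _ _) this
  have h5 := hg x
  rw [hfix] at h5
  have h6 := hg (T t ht)
  have h7 : g • T t ht - T t ht ∈ P := by
    have h8 : g • T t ht - T t ht = (g • T t ht - T t ht ^ q) +
        (T t ht ^ q - x ^ q) - (x - x ^ q) + (x - T t ht) := by ring
    rw [h8]
    exact P.add_mem (P.sub_mem (P.add_mem h6 h4) h5) hxt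
  have hG : Ro α β (g • T t ht : OO ℚ) := by
    apply RingOfIntegers.ext
    simp only [map_add, map_mul, map_pow, map_zero]
    exact hgt
  have hT : Ro α β (T t ht : OO ℚ) := by
    apply RingOfIntegers.ext
    simp only [map_add, map_mul, map_pow, map_zero]
    exact ht
  have hne : (g • T t ht : OO ℚ) ≠ T t ht := by
    intro h
    refine hmove t ?_ (congrArg (fun y : OO ℚ => (y : AlgebraicClosure ℚ)) h)
    rw [← hcα, ← hcβ]
    exact ht
  apply hΔ
  rw [ro_disc hG hT hne]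
  exact P.mul_mem_right _ h7

theorem deg_one1 (hq : q.Prime) (hP : P.IsMaximal) (hqP : (q : OO ℚ) ∈ P) (hg : FrobAt q P g)
    (τ : GF ℚ) (hK : τ⁻¹ * g * τ ∈ Pool.Agent.Y142.HH ℚ K) :
    Ideal.absNorm (vv τ hq hP hqP : HeightOneSpectrum (𝓞 K)).asIdeal = q := by
  refine absNorm_eq_of_pow hq natCast_mem_vv fun X => ?_
  rw [mem_vv]
  have hfix : g • (τ • ioO K (algebraMap (𝓞 K) (OO K) X)) =
      τ • ioO K (algebraMap (𝓞 K) (OO K) X) := by
    have h2 : g * τ = τ * (τ⁻¹ * g * τ) := by group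
    rw [smul_smul, h2, ← smul_smul, smul_ioO_of_mem hK]
  have h5 := hg (τ • ioO K (algebraMap (𝓞 K) (OO K) X))
  rw [hfix] at h5
  have e : τ • ioO K (algebraMap (𝓞 K) (OO K) (X ^ q - X)) =
      -(τ • ioO K (algebraMap (𝓞 K) (OO K) X) - (τ • ioO K (algebraMap (𝓞 K) (OO K) X)) ^ q) := by
    simp only [map_sub, map_pow, smul_sub, smul_pow', neg_sub]
  rw [e]
  exact P.neg_mem h5

end frob

/-- the prime numbers with an admissible place of degree one -/
def QV {J : Type} (a b : J → 𝓞 K) (x : 𝓞 K) : Set ℕ :=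
  {q | q.Prime ∧ ∃ v : HeightOneSpectrum (𝓞 K), (q : 𝓞 K) ∈ v.asIdeal ∧
    Ideal.absNorm v.asIdeal = q ∧ x ∉ v.asIdeal ∧ ∀ i, ∀ X : 𝓞 K, X ^ 3 + a i * X + b i ∉ v.asIdeal}

theorem densV {J : Type} [Finite J] {a b : J → 𝓞 K} {x : 𝓞 K} (hx : x ≠ 0)
    (hxd : ∀ i, 2 * (4 * a i ^ 3 + 27 * b i ^ 2) ∣ x) {g : GF ℚ}
    (hgH : g ∈ Pool.Agent.Y142.HH ℚ K)
    (hg : ∀ i, ∀ t : AlgebraicClosure ℚ, Ro (emb ℚ K (a i : K)) (emb ℚ K (b i : K)) t → g t ≠ t) :
    ∃ d : ℝ, 0 < d ∧ ∀ B : Set ℕ, B.Finite → ∀ᶠ N : ℕ in atTop,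
      d * (N / Real.log N) ≤ AB.Cnt.cA (QV a b x \ B) N := by
  classical
  let S : Set (AlgebraicClosure ℚ) := ⋃ i, {t | Ro (emb ℚ K (a i : K)) (emb ℚ K (b i : K)) t}
  have hS : S.Finite := by
    refine Set.finite_iUnion fun i => ?_
    obtain ⟨t1, t2, t3, h1, h2, h3, hsp⟩ := ro_split (emb ℚ K (a i : K)) (emb ℚ K (b i : K))
    refine ((Set.finite_singleton t1).union ((Set.finite_singleton t2).union
      (Set.finite_singleton t3))).subset ?_
    intro t ht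
    have ht' : Ro (emb ℚ K (a i : K)) (emb ℚ K (b i : K)) t := ht
    unfold Ro at ht'
    rw [hsp] at ht'
    rcases mul_eq_zero.1 ht' with h4 | h4
    · rcases mul_eq_zero.1 h4 with h4 | h4
      · exact Or.inl (sub_eq_zero.1 h4)
      · exact Or.inr (Or.inl (sub_eq_zero.1 h4))
    · exact Or.inr (Or.inr (sub_eq_zero.1 h4))
  have hSf : Finite S := hS.to_subtype
  let E : IntermediateField ℚ (AlgebraicClosure ℚ) := IntermediateField.adjoin ℚ S
  have hE : FiniteDimensional ℚ E := IntermediateField.finiteDimensional_adjoin fun t _ =>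
    ((AlgebraicClosure.isAlgebraic ℚ).isAlgebraic t).isIntegral
  let W1 : Subgroup (GF ℚ) := E.fixingSubgroup
  have hW1 : IsOpen (W1 : Set (GF ℚ)) := E.fixingSubgroup_isOpen
  let W : Subgroup (GF ℚ) := W1 ⊓ Pool.Agent.Y142.HH ℚ K
  have hW : IsOpen (W : Set (GF ℚ)) := by
    have e1 : (W : Set (GF ℚ)) = (W1 : Set (GF ℚ)) ∩ (Pool.Agent.Y142.HH ℚ K : Set (GF ℚ)) := by
      rw [Subgroup.coe_inf]
    rw [e1]
    exact hW1.inter isOpen_HH
  have hWf : Finite (GF ℚ ⧸ W) := Subgroup.quotient_finite_of_isOpen W hW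
  have hWi : W.FiniteIndex := Subgroup.finiteIndex_of_finite_quotient
  have hWc : IsClosed (W : Set (GF ℚ)) := W.isClosed_of_isOpen hW
  have hU : IsOpen (W.normalCore : Set (GF ℚ)) :=
    Subgroup.isOpen_of_isClosed_of_finiteIndex _ (W.normalCore_isClosed hWc)
  obtain ⟨d, hd, h1⟩ := density_lower W.normalCore hU g
  refine ⟨d / 2, by positivity, fun B hB => ?_⟩
  let B0 : Set ℕ := Set.Iic (Ideal.absNorm (Ideal.span {x}))
  have hB0 : B0.Finite := Set.finite_Iic _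
  filter_upwards [remove hd h1 (hB.union hB0)] with N hN
  refine hN.trans ?_
  have h2 : X0 W.normalCore g \ (B ∪ B0) ⊆ QV a b x \ B := by
    rintro q ⟨⟨hq, P, s, hP, hqP, hs, hu⟩, hqB⟩
    rw [Set.mem_union, not_or] at hqB
    refine ⟨?_, hqB.1⟩
    have hqB2 := hqB.2
    have hsW : g⁻¹ * s ∈ W := W.normalCore_le hu
    have hsK : s ∈ Pool.Agent.Y142.HH ℚ K := by
      have h4 : s = g * (g⁻¹ * s) := by group
      rw [h4]
      exact Subgroup.mul_mem _ hgH (Subgroup.mem_inf.1 hsW).2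
    have hsK1 : (1 : GF ℚ)⁻¹ * s * 1 ∈ Pool.Agent.Y142.HH ℚ K := by
      rwa [inv_one, one_mul, mul_one]
    have hsm : ∀ i, ∀ t : AlgebraicClosure ℚ,
        Ro ((1 : GF ℚ) (emb ℚ K (a i : K))) ((1 : GF ℚ) (emb ℚ K (b i : K))) t → s t ≠ t := by
      intro i t ht
      have ht' : Ro (emb ℚ K (a i : K)) (emb ℚ K (b i : K)) t := ht
      have htS : t ∈ S := Set.mem_iUnion.2 ⟨i, ht'⟩
      have h5 : (g⁻¹ * s) t = t := by
        have h6 := (IntermediateField.mem_fixingSubgroup_iff E (g⁻¹ * s)).1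
          (Subgroup.mem_inf.1 hsW).1
        exact h6 t (IntermediateField.subset_adjoin ℚ S htS)
      have h6 : s t = g t := by
        have h7 : g ((g⁻¹ * s) t) = s t := by
          show (g * (g⁻¹ * s)) t = s t
          rw [mul_inv_cancel_left]
        rw [← h7, h5]
      rw [h6]
      exact hg i t ht'
    have hdeg := deg_one1 (K := K) hq hP hqP hs 1 hsK1
    have hxv : x ∉ (vv (1 : GF ℚ) hq hP hqP : HeightOneSpectrum (𝓞 K)).asIdeal := by
      intro hmem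
      apply hqB2
      have h3 : (vv (1 : GF ℚ) hq hP hqP : HeightOneSpectrum (𝓞 K)).asIdeal ∣ Ideal.span {x} :=
        Ideal.dvd_span_singleton.2 hmem
      have h4 := Ideal.absNorm_dvd_absNorm_of_le (Ideal.le_of_dvd h3)
      rw [hdeg] at h4
      refine Nat.le_of_dvd (Nat.pos_of_ne_zero ?_) h4
      rw [Ne, Ideal.absNorm_eq_zero_iff, Ideal.span_singleton_eq_bot]
      exact hx
    refine ⟨hq, vv 1 hq hP hqP, natCast_mem_vv, hdeg, hxv, fun i X => ?_⟩
    refine no_root1 hq hP hqP hs 1 hsK1 (hsm i) (fun hmem => hxv ?_) X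
    obtain ⟨k, hk⟩ := hxd i
    rw [hk]
    exact Ideal.mul_mem_right _ _ hmem
  exact_mod_cast cA_mono h2 N

end Pool.Agent.K4H55.BM
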