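import Pool.Agent.K4H55.BM.Cnt
import Pool.Agent.K4H55.BD.Fin

/-!
The number of the quadratic characters over `K` with nonvanishing.
-/

set_option autoImplicit false

open NumberField IsDedekindDomain Filter Topology
open scoped symmDiff

namespace Pool.Agent.K4H55.BM

open Pool.Agent.W569.FM Pool.Agent.Y142
open Pool.Agent.K4H55.BI Pool.Agent.K4H55.BD

/-- from the absolute Galois group of `K` to that of `ℚ` -/
theorem transport {K : Type} [Field K] [NumberField K] {J : Type} {a b : J → 𝓞 K}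
    (h : ∃ g : AlgebraicClosure K ≃ₐ[K] AlgebraicClosure K, ∀ i, ∀ t : AlgebraicClosure K,
      t ^ 3 + algebraMap K (AlgebraicClosure K) (a i) * t +
        algebraMap K (AlgebraicClosure K) (b i) = 0 → g t ≠ t) :
    ∃ g : GF ℚ, g ∈ Pool.Agent.Y142.HH ℚ K ∧
      ∀ i, ∀ t : AlgebraicClosure ℚ, Ro (emb ℚ K (a i : K)) (emb ℚ K (b i : K)) t → g t ≠ t := by
  obtain ⟨g, hg⟩ := h
  let g' : GF ℚ := (io ℚ K).symm.trans ((g.restrictScalars ℚ).trans (io ℚ K))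
  have hg' : ∀ t, g' t = io ℚ K (g ((io ℚ K).symm t)) := fun _ => rfl
  refine ⟨g', ?_, fun i t ht => ?_⟩
  · rw [mem_HH]
    intro x
    rw [hg', emb_apply, AlgEquiv.symm_apply_apply, g.commutes]
  · rw [hg']
    intro h1
    refine hg i ((io ℚ K).symm t) ?_ ?_
    · have := congrArg (io ℚ K).symm ht
      rw [emb_apply, emb_apply] at this
      simp only [map_add, map_mul, map_pow, map_zero, AlgEquiv.symm_apply_apply] at this
      exact this
    · have h2 := congrArg (io ℚ K).symm h1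
      rwa [AlgEquiv.symm_apply_apply] at h2

section main

variable {K : Type} [Field K] [NumberField K] [hP : IsPrincipalIdealRing (𝓞 K)]

theorem mainA [DecidableEq (HeightOneSpectrum (𝓞 K))] {σ : K →+* ℂ} {δ : K} (h : IQ K σ δ)
    {J : Type} [Fintype J] (n : J → 𝓞 K)
    (c : J → Ideal (𝓞 K) → ℂ) (hf : ∀ i, BF σ δ (n i) (c i)) (h0 : ∀ i, NVT (n i) (c i) ∅)
    (lam : Ideal (integralClosure ℤ ℂ)) (hlam : lam.IsPrime)
    (hmem : (2 : integralClosure ℤ ℂ) ∈ lam) :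
    ∃ V : ℕ, ∀ (A : Set (HeightOneSpectrum (𝓞 K))), A ⊆ Adm n c lam → ∀ Y : Set (𝓞 K),
      ∃ KK : Finset (Finset (HeightOneSpectrum (𝓞 K))), KK.card ≤ V ∧
      (∀ k ∈ KK, Cl A Y k) ∧ ∀ T, Cl A Y T →
        ∃ k ∈ KK, (Cl A Y (T ∆ k)) ∧ ∀ i, NVT (n i) (c i) (T ∆ k) := by
  classical
  set D := ordK h with hD
  choose C w κ κW hN using fun i => (hf i).newf h
  have hMG := fun i => (hN i).mg
  have hb0 : ∀ i, bt D (fv D fun x => c i (Ideal.span {x})) ∅ ≠ 0 := by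
    intro i
    have h1 := (nvt_iff h (hf i) (T := ∅) (by
      rw [Finset.image_empty]
      exact ⟨fun p hp => absurd hp (Finset.notMem_empty p), fun p hp =>
        absurd hp (Finset.notMem_empty p), fun p hp => absurd hp (Finset.notMem_empty p)⟩)
      (fun u _ => by unfold chiT; simp) (fun v hv => absurd hv (Finset.notMem_empty v))).1 (h0 i)
    rwa [Finset.image_empty] at h1
  obtain ⟨V, hV⟩ := corr_sets hMG hb0 lam hlam hmem
  refine ⟨2 ^ V, fun A hAA Y => ?_⟩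
  have hAdm : ∀ v ∈ A, (2 : 𝓞 K) ∉ v.asIdeal := fun v hv => (hAA hv).1
  have hA : ∀ i, AdS (n i) (GA A Y) := by
    intro i
    refine ⟨?_, ?_, ?_, ?_⟩
    · rintro p ⟨v, hv, rfl⟩
      exact gen_prime v
    · rintro p ⟨v, hv, rfl⟩ hd
      exact (hAA hv.1).1 (gen_dvd.1 hd)
    · rintro p ⟨v, hv, rfl⟩ p' ⟨v', hv', rfl⟩ hd
      rw [gen_na hd]
    · rintro p ⟨v, hv, rfl⟩ hd
      exact ((hAA hv.1).2 i).1 (gen_dvd.1 hd)
  obtain ⟨K1, hK1, hK2, hK3⟩ := hV (GA A Y) (GY Y) hA (by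
    rintro i q ⟨v, hv, rfl⟩
    refine ⟨gen_prime v, fun hd => ((hAA hv.1).2 i).1 (gen_dvd.1 hd), ?_⟩
    simp only [gen_span]
    exact ((hAA hv.1).2 i).2) (by
    rintro p ⟨v, hv, rfl⟩ y (hy | hy) hd
    · exact (gen_prime v).not_isUnit (isUnit_of_dvd_unit hd hy)
    · exact hv.2 y hy (gen_dvd.1 hd))
  have hpre : ∀ k ∈ K1, (k.preimage gen gen_inj.injOn).image gen = k := by
    intro k hk
    rw [Finset.image_preimage]
    refine Finset.filter_true_of_mem fun p hp => ?_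
    obtain ⟨v, hv, rfl⟩ := (hK2 k hk).sub p hp
    exact ⟨v, rfl⟩
  refine ⟨K1.image fun k => k.preimage gen gen_inj.injOn, Finset.card_image_le.trans hK1, ?_, ?_⟩
  · intro k hk
    obtain ⟨k', hk', rfl⟩ := Finset.mem_image.1 hk
    rw [← gt_iff, hpre k' hk']
    exact hK2 k' hk'
  · intro T hT
    obtain ⟨k, hk, h2⟩ := hK3 _ (gt_iff.2 hT)
    have hk1 : Cl A Y (k.preimage gen gen_inj.injOn) := by
      rw [← gt_iff, hpre k hk]
      exact hK2 k hk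
    have hsym : Cl A Y (T ∆ k.preimage gen gen_inj.injOn) := by
      have hmv : ∀ v ∈ T ∆ k.preimage gen gen_inj.injOn, v ∈ A := by
        intro v hv
        rcases Finset.mem_symmDiff.1 hv with hv | hv
        · exact hT.adm v hv.1
        · exact hk1.adm v hv.1
      have hmul : ∀ y : 𝓞 K, (∀ v ∈ T, y ∉ v.asIdeal) →
          (∀ v ∈ k.preimage gen gen_inj.injOn, y ∉ v.asIdeal) →
          chiT (T ∆ k.preimage gen gen_inj.injOn) y =
            chiT T y * chiT (k.preimage gen gen_inj.injOn) y := by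
        intro y h3 h4
        rw [← chi_gen, ← chi_gen, ← chi_gen, Finset.image_symmDiff _ _ gen_inj]
        refine chi_symmDiff ?_ ?_
        · intro p hp hd
          obtain ⟨v, hv, rfl⟩ := Finset.mem_image.1 hp
          exact h3 v hv (gen_dvd.1 hd)
        · intro p hp hd
          obtain ⟨v, hv, rfl⟩ := Finset.mem_image.1 hp
          exact h4 v hv (gen_dvd.1 hd)
      refine ⟨hmv, fun u hu => ?_, fun y hy => ?_⟩
      · have hnu : ∀ v : HeightOneSpectrum (𝓞 K), u ∉ v.asIdeal := fun v hv =>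
          v.isPrime.ne_top (Ideal.eq_top_of_isUnit_mem _ hv hu)
        rw [hmul u (fun v _ => hnu v) (fun v _ => hnu v), hT.unit u hu, hk1.unit u hu, one_mul]
      · rw [hmul y (fun v hv => hT.cop hv hy) (fun v hv => hk1.cop hv hy), hT.one y hy,
          hk1.one y hy, one_mul]
    refine ⟨_, Finset.mem_image_of_mem _ hk, hsym, fun i => ?_⟩
    rw [nvt_iff h (hf i) (fam_of hAdm hsym.adm) hsym.unit fun v hv => ((hAA (hsym.adm v hv)).2 i).1,
      Finset.image_symmDiff _ _ gen_inj, hpre k hk]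
    exact h2 i

/-- multiplicativity -/
lemma chiT_symm [DecidableEq (HeightOneSpectrum (𝓞 K))] {T T' : Finset (HeightOneSpectrum (𝓞 K))}
    {y : 𝓞 K} (h3 : ∀ v ∈ T, y ∉ v.asIdeal) (h4 : ∀ v ∈ T', y ∉ v.asIdeal) :
    chiT (T ∆ T') y = chiT T y * chiT T' y := by
  classical
  rw [← chi_gen, ← chi_gen, ← chi_gen, Finset.image_symmDiff _ _ gen_inj]
  refine chi_symmDiff ?_ ?_
  · intro p hp hd
    obtain ⟨v, hv, rfl⟩ := Finset.mem_image.1 hp
    exact h3 v hv (gen_dvd.1 hd)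
  · intro p hp hd
    obtain ⟨v, hv, rfl⟩ := Finset.mem_image.1 hp
    exact h4 v hv (gen_dvd.1 hd)

lemma chiT_pm {T : Finset (HeightOneSpectrum (𝓞 K))} {y : 𝓞 K} (h : ∀ v ∈ T, y ∉ v.asIdeal) :
    chiT T y = 1 ∨ chiT T y = -1 := by
  classical
  refine mul_self_eq_one_iff.1 ?_
  rw [← chi_gen]
  refine chi_sq fun p hp hd => ?_
  obtain ⟨v, hv, rfl⟩ := Finset.mem_image.1 hp
  exact h v hv (gen_dvd.1 hd)

omit hP in
lemma norm_odd {v : HeightOneSpectrum (𝓞 K)} (h2 : (2 : 𝓞 K) ∉ v.asIdeal) :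
    Odd (Ideal.absNorm v.asIdeal) := by
  classical
  have hfin : Finite (𝓞 K ⧸ v.asIdeal) := v.asIdeal.finiteQuotientOfFreeOfNeBot v.ne_bot
  have : Fintype (𝓞 K ⧸ v.asIdeal) := Fintype.ofFinite _
  have hmax := v.isMaximal
  let _ : Field (𝓞 K ⧸ v.asIdeal) := Ideal.Quotient.field v.asIdeal
  by_contra hcon
  rw [Nat.not_odd_iff_even, Nat.even_iff] at hcon
  have h3 : Ideal.absNorm v.asIdeal = Fintype.card (𝓞 K ⧸ v.asIdeal) := by
    rw [Ideal.absNorm_apply, Submodule.cardQuot_apply, Nat.card_eq_fintype_card]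
  rw [h3] at hcon
  have h4 := FiniteField.even_card_iff_char_two.2 hcon
  have h5 : ((2 : ℕ) : 𝓞 K ⧸ v.asIdeal) = 0 := by
    rw [← h4]
    exact ringChar.Nat.cast_ringChar
  apply h2
  rw [← Ideal.Quotient.eq_zero_iff_mem]
  exact_mod_cast h5

/-- the admissible places of the curves -/
def AE {J : Type} (a b : J → 𝓞 K) : Set (HeightOneSpectrum (𝓞 K)) :=
  {v | (2 : 𝓞 K) ∉ v.asIdeal ∧ ∀ i, 2 * (4 * a i ^ 3 + 27 * b i ^ 2) ∉ v.asIdeal ∧
    ∀ X : 𝓞 K, X ^ 3 + a i * X + b i ∉ v.asIdeal}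

theorem final [DecidableEq (HeightOneSpectrum (𝓞 K))] {σ : K →+* ℂ} {δ : K} (h : IQ K σ δ)
    {J : Type} [Fintype J] (n : J → 𝓞 K) (a b : J → 𝓞 K)
    (hΔ : ∀ i, 2 * (4 * a i ^ 3 + 27 * b i ^ 2) ≠ 0)
    (c : J → Ideal (𝓞 K) → ℂ) (hf : ∀ i, BF σ δ (n i) (c i)) (h0 : ∀ i, NVT (n i) (c i) ∅)
    (hc : ∀ i, ∀ v : HeightOneSpectrum (𝓞 K), 2 * (4 * a i ^ 3 + 27 * b i ^ 2) ∉ v.asIdeal →
      n i ∉ v.asIdeal ∧ c i v.asIdeal = (Ideal.absNorm v.asIdeal : ℂ) - pv (a i) (b i) v)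
    {g : GF ℚ} (hgH : g ∈ Pool.Agent.Y142.HH ℚ K)
    (hg : ∀ i, ∀ t : AlgebraicClosure ℚ, Ro (emb ℚ K (a i : K)) (emb ℚ K (b i : K)) t → g t ≠ t) :
    ∃ ε : ℝ, 0 < ε ∧ ε < 1 ∧ ∀ Y : Set (𝓞 K), Y.Finite → (0 : 𝓞 K) ∉ Y →
      ∃ X0 : ℕ, ∀ X : ℕ, X0 ≤ X → (X : ℝ) / Real.log X ^ (1 - ε) ≤
        {T | (Cl (AE a b) Y T ∧ ∀ i, NVT (n i) (c i) T) ∧ NT T ≤ X}.ncard := by
  classical
  obtain ⟨lam, hlam, h2, hint⟩ := Pool.Agent.Y18.LP.exists_lam Nat.prime_two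
  have h2' : (2 : integralClosure ℤ ℂ) ∈ lam := by exact_mod_cast h2
  obtain ⟨V, hV⟩ := mainA h n c hf h0 lam hlam h2'
  set x : 𝓞 K := 2 * ∏ i, 2 * (4 * a i ^ 3 + 27 * b i ^ 2) with hx
  have hx0 : x ≠ 0 := mul_ne_zero two_ne_zero (Finset.prod_ne_zero_iff.2 fun i _ => hΔ i)
  have hxd : ∀ i, 2 * (4 * a i ^ 3 + 27 * b i ^ 2) ∣ x := fun i =>
    Dvd.dvd.mul_left (Finset.dvd_prod_of_mem (fun i => 2 * (4 * a i ^ 3 + 27 * b i ^ 2))
      (Finset.mem_univ i)) 2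
  obtain ⟨d, hd, hdens⟩ := densV hx0 hxd hgH hg
  obtain ⟨ε, hε, hε1, hmany⟩ := AB.Cnt.many hd
  refine ⟨ε / 2, by positivity, by linarith, fun Y hY hY0 => ?_⟩
  have hAE : AE a b ⊆ Adm n c lam := by
    rintro v ⟨hv2, hv⟩
    refine ⟨hv2, fun i => ⟨(hc i v (hv i).1).1, ?_⟩⟩
    intro y hy he
    obtain ⟨k, hk⟩ := pv_even (a := a i) (b := b i) hv2 (hv i).2
    rw [(hc i v (hv i).1).2] at he
    have h4 : y = (((Ideal.absNorm v.asIdeal : ℤ) - (pv (a i) (b i) v : ℤ) : ℤ) :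
        integralClosure ℤ ℂ) := by
      apply Subtype.ext
      rw [he]
      push_cast
      simp
    rw [h4] at hy
    have h5 : ((2 : ℕ) : ℤ) ∣ (Ideal.absNorm v.asIdeal : ℤ) - (pv (a i) (b i) v : ℤ) :=
      hint _ hy
    have h6 := norm_odd hv2
    rw [Nat.odd_iff] at h6
    omega
  obtain ⟨M0, hM0⟩ := Ideal.exists_maximal (𝓞 K)
  let v0 : HeightOneSpectrum (𝓞 K) := ⟨M0, hM0.isPrime,
    Ring.ne_bot_of_isMaximal_of_not_isField hM0 (RingOfIntegers.not_isField K)⟩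
  have hne : Nonempty (HeightOneSpectrum (𝓞 K)) := ⟨v0⟩
  have hq : ∀ q : ℕ, ∃ v : HeightOneSpectrum (𝓞 K), q ∈ QV a b x → (q : 𝓞 K) ∈ v.asIdeal ∧
      Ideal.absNorm v.asIdeal = q ∧ x ∉ v.asIdeal ∧
        ∀ i, ∀ X : 𝓞 K, X ^ 3 + a i * X + b i ∉ v.asIdeal := by
    intro q
    by_cases hq : q ∈ QV a b x
    · obtain ⟨v, hv⟩ := hq.2
      exact ⟨v, fun _ => hv⟩
    · exact ⟨v0, fun h => absurd h hq⟩
  choose vq hvq using hq
  obtain ⟨KK, -, hK2, hK3⟩ := hV (AE a b) hAE Y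
  -- the finite set of the values
  set Z : Set (𝓞 K) := {u | IsUnit u} ∪ Y with hZ
  have hZf : Z.Finite := (unit_fin (ordK h)).union hY
  set B : Set ℕ := ⋃ y ∈ Y, Set.Iic (Ideal.absNorm (Ideal.span {y})) with hB
  have hBf : B.Finite := hY.biUnion fun y _ => Set.finite_Iic _
  set A : Set ℕ := QV a b x \ B with hA
  have hAp : ∀ q ∈ A, q.Prime := fun q hq => hq.1.1
  have hAv : ∀ q ∈ A, Ideal.absNorm (vq q).asIdeal = q := fun q hq => (hvq q hq.1).2.1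
  have hAA : ∀ q ∈ A, vq q ∈ AE a b := by
    intro q hq
    obtain ⟨h3, h4, h5, h6⟩ := hvq q hq.1
    refine ⟨fun h7 => h5 ?_, fun i => ⟨fun h7 => h5 ?_, h6 i⟩⟩
    · rw [hx]
      exact Ideal.mul_mem_right _ _ h7
    · obtain ⟨k, hk⟩ := hxd i
      rw [hk]
      exact Ideal.mul_mem_right _ _ h7
  have hAZ : ∀ q ∈ A, ∀ z ∈ Z, z ∉ (vq q).asIdeal := by
    rintro q hq z (hz | hz) hmem
    · exact (vq q).isPrime.ne_top (Ideal.eq_top_of_isUnit_mem _ hmem hz)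
    · apply hq.2
      refine Set.mem_biUnion hz ?_
      rw [Set.mem_Iic, ← hAv q hq]
      have h3 : (vq q).asIdeal ∣ Ideal.span {z} := Ideal.dvd_span_singleton.2 hmem
      have h4 := Ideal.absNorm_dvd_absNorm_of_le (Ideal.le_of_dvd h3)
      refine Nat.le_of_dvd (Nat.pos_of_ne_zero ?_) h4
      rw [Ne, Ideal.absNorm_eq_zero_iff, Ideal.span_singleton_eq_bot]
      rintro rfl
      exact hY0 hz
  have hCh : ∀ T, Ch vq A T → (∀ v ∈ T, v ∈ AE a b) ∧ ∀ z ∈ Z, ∀ v ∈ T, z ∉ v.asIdeal := by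
    rintro T ⟨S, hS, hTS⟩
    have h3 : ∀ v ∈ T, ∃ q ∈ A, vq q = v := by
      intro v hv
      have h4 : v ∈ (T : Set (HeightOneSpectrum (𝓞 K))) := hv
      rw [hTS] at h4
      obtain ⟨q, hq, rfl⟩ := h4
      exact ⟨q, hS q hq, rfl⟩
    refine ⟨fun v hv => ?_, fun z hz v hv => ?_⟩
    · obtain ⟨q, hq, rfl⟩ := h3 v hv
      exact hAA q hq
    · obtain ⟨q, hq, rfl⟩ := h3 v hv
      exact hAZ q hq z hz
  -- representatives
  have hZfin : Finite Z := hZf.to_subtype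
  let Fz : Finset (HeightOneSpectrum (𝓞 K)) → (Z → ℂ) := fun T z => chiT T z
  have hSf : (Fz '' {T | Ch vq A T}).Finite := by
    refine Set.Finite.subset (Set.Finite.pi' (t := fun _ : Z => ({1, -1} : Set ℂ))
      fun _ => Set.toFinite _) ?_
    rintro f ⟨T, hT, rfl⟩ z
    rcases chiT_pm ((hCh T hT).2 z z.2) with h3 | h3
    · exact Or.inl h3
    · exact Or.inr h3
  have hrep : ∀ f ∈ Fz '' {T | Ch vq A T}, ∃ T, Ch vq A T ∧ Fz T = f := by
    rintro f ⟨T, hT, rfl⟩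
    exact ⟨T, hT, rfl⟩
  choose! rp hrp1 hrp2 using hrep
  let R : Finset (Finset (HeightOneSpectrum (𝓞 K))) := hSf.toFinset.image rp
  let KK2 : Finset (Finset (HeightOneSpectrum (𝓞 K))) :=
    (R ×ˢ KK).image fun z => z.1 ∆ z.2
  obtain ⟨C, hC⟩ := count2 (P := Ch vq A)
    (P' := fun T => Cl (AE a b) Y T ∧ ∀ i, NVT (n i) (c i) T) KK2 (by
    intro T hT
    have hfT : Fz T ∈ Fz '' {T | Ch vq A T} := ⟨T, hT, rfl⟩
    have hr1 := hrp1 (Fz T) hfT
    have hr2 := hrp2 (Fz T) hfT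
    set r := rp (Fz T) with hr
    obtain ⟨h3, h4⟩ := hCh T hT
    obtain ⟨h5, h6⟩ := hCh r hr1
    have h7 : ∀ z ∈ Z, chiT (T ∆ r) z = 1 := by
      intro z hz
      rw [chiT_symm (h4 z hz) (h6 z hz)]
      have h8 : chiT r z = chiT T z := congrFun hr2 ⟨z, hz⟩
      rw [h8]
      rcases chiT_pm (h4 z hz) with h9 | h9
      · rw [h9, one_mul]
      · rw [h9]; norm_num
    have h8 : Cl (AE a b) Y (T ∆ r) := by
      refine ⟨fun v hv => ?_, fun u hu => h7 u (Or.inl hu), fun y hy => h7 y (Or.inr hy)⟩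
      rcases Finset.mem_symmDiff.1 hv with hv | hv
      · exact h3 v hv.1
      · exact h5 v hv.1
    obtain ⟨k, hk, h9, h10⟩ := hK3 _ h8
    refine ⟨r ∆ k, Finset.mem_image.2 ⟨(r, k), Finset.mem_product.2
      ⟨Finset.mem_image_of_mem rp (hSf.mem_toFinset.2 hfT), hk⟩, rfl⟩, ?_⟩
    rw [← symmDiff_assoc]
    exact ⟨h9, h10⟩)
  refine convert hε hε1 (hmany A hAp (hdens B hBf)) ?_ (C := C) fun X =>
    (NA_le hAv X).trans (hC X)
  intro X X' hXX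
  exact Set.ncard_le_ncard (fun T hT => ⟨hT.1, hT.2.trans hXX⟩)
    ((NT_fin X').subset fun T hT => hT.2)

end main

end Pool.Agent.K4H55.BM
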